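import Mathlib
import Pool.Agent.W355.FR.Stm

set_option autoImplicit false

namespace Pool.Agent.W571.FR.CNL

open Pool.Agent.W355.FR Polynomial

lemma hv_add (D : ℕ) (f g : ℤ[X]) (a b : ℤ) : hv D (f + g) a b = hv D f a b + hv D g a b := by
  simp only [hv, coeff_add, add_mul, Finset.sum_add_distrib]

lemma hv_C_mul (D : ℕ) (c : ℤ) (f : ℤ[X]) (a b : ℤ) : hv D (C c * f) a b = c * hv D f a b := by
  simp only [hv, coeff_C_mul, Finset.mul_sum]
  refine Finset.sum_congr rfl fun i _ => ?_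
  ring

lemma hv_disc (hHVM : P_HVM) (k : ℕ) (A B : ℤ[X]) (hA : A.natDegree ≤ 4 * k)
    (hB : B.natDegree ≤ 6 * k) (a b : ℤ) :
    hv (12 * k) (4 * A ^ 3 + 27 * B ^ 2) a b =
      4 * (hv (4 * k) A a b) ^ 3 + 27 * (hv (6 * k) B a b) ^ 2 := by
  have h1 : hv (4 * k + 4 * k) (A * A) a b = hv (4 * k) A a b * hv (4 * k) A a b :=
    hHVM _ _ _ _ hA hA a b
  have hAA : (A * A).natDegree ≤ 4 * k + 4 * k := natDegree_mul_le.trans (add_le_add hA hA)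
  have h2 : hv (4 * k + 4 * k + 4 * k) (A * A * A) a b =
      hv (4 * k + 4 * k) (A * A) a b * hv (4 * k) A a b := hHVM _ _ _ _ hAA hA a b
  have h3 : hv (6 * k + 6 * k) (B * B) a b = hv (6 * k) B a b * hv (6 * k) B a b :=
    hHVM _ _ _ _ hB hB a b
  have e12 : 4 * k + 4 * k + 4 * k = 12 * k := by ring
  have e12' : 6 * k + 6 * k = 12 * k := by ring
  rw [e12] at h2
  rw [e12'] at h3
  have e1 : (4 * A ^ 3 + 27 * B ^ 2 : ℤ[X]) = C 4 * (A * A * A) + C 27 * (B * B) := by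
    rw [map_ofNat C 4, map_ofNat C 27]
    ring
  rw [e1, hv_add, hv_C_mul, hv_C_mul, h2, h1, h3]
  ring

lemma natDegree_disc (k : ℕ) (A B : ℤ[X]) (hA : A.natDegree ≤ 4 * k)
    (hB : B.natDegree ≤ 6 * k) : (4 * A ^ 3 + 27 * B ^ 2 : ℤ[X]).natDegree ≤ 12 * k := by
  refine natDegree_add_le_of_degree_le ?_ ?_
  · have h4 : (4 : ℤ[X]) = C 4 := (map_ofNat C 4).symm
    rw [h4]
    refine (natDegree_C_mul_le _ _).trans (natDegree_pow_le.trans ?_)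
    omega
  · have h4 : (27 : ℤ[X]) = C 27 := (map_ofNat C 27).symm
    rw [h4]
    refine (natDegree_C_mul_le _ _).trans (natDegree_pow_le.trans ?_)
    omega

lemma wt_le (P A : ℤ[X]) : wt P A ≤ 2 := by
  unfold wt
  split_ifs <;> norm_num

lemma log_cond6 (a b : ℤ) : Real.log (cond6 a b) =
    ∑ p ∈ (4 * a ^ 3 + 27 * b ^ 2).natAbs.primeFactors.filter (fun p => 5 ≤ p),
      (condExp p a b : ℝ) * Real.log p := by
  unfold cond6
  rw [Nat.cast_prod, Real.log_prod]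
  · refine Finset.sum_congr rfl fun p _ => ?_
    rw [Nat.cast_pow, Real.log_pow]
  · intro p hp
    rw [Finset.mem_filter] at hp
    have : (p : ℝ) ≠ 0 := by
      have := (Nat.prime_of_mem_primeFactors hp.1).pos
      positivity
    rw [Nat.cast_pow]
    exact pow_ne_zero _ this

lemma core (A : ℤ[X]) (S : Finset ℤ[X]) (z : ℤ[X] → ℕ) (ε' : ℝ) (hε : 0 ≤ ε') (a b A' B' : ℤ)
    (H : ℕ) (hz : ∀ P ∈ S, 5 ≤ z P)
    (hLC : ∀ P ∈ S, ∀ p : ℕ, p.Prime → z P < p → (p : ℤ) ∣ hv P.natDegree P a b →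
      ¬ (p : ℤ) ^ 2 ∣ hv P.natDegree P a b →
      (p : ℤ) ∣ 4 * A' ^ 3 + 27 * B' ^ 2 ∧ wt P A ≤ condExp p A' B')
    (hRES : ∀ P ∈ S, ∀ Q ∈ S, P ≠ Q → ∀ p : ℕ, p.Prime → z P < p →
      (p : ℤ) ∣ hv P.natDegree P a b → ¬ (p : ℤ) ∣ hv Q.natDegree Q a b)
    (hD : 4 * A' ^ 3 + 27 * B' ^ 2 ≠ 0)
    (hgood : ∀ P ∈ S, (∀ p : ℕ, p.Prime → z P < p → ¬ (p : ℤ) ^ 2 ∣ hv P.natDegree P a b) ∧
      hv P.natDegree P a b ≠ 0 ∧
      ((P.natDegree : ℝ) - ε') * Real.log H ≤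
        ∑ p ∈ (hv P.natDegree P a b).natAbs.primeFactors.filter (fun p => z P < p),
          Real.log p) :
    (((∑ P ∈ S, wt P A * P.natDegree : ℕ) : ℝ) - 2 * S.card * ε') * Real.log H ≤
      Real.log (cond6 A' B') := by
  classical
  have hlogH : 0 ≤ Real.log H := Real.log_natCast_nonneg H
  set G : ℤ[X] → Finset ℕ := fun P =>
    (hv P.natDegree P a b).natAbs.primeFactors.filter (fun p => z P < p) with hG
  have hmem : ∀ P ∈ S, ∀ p ∈ G P, p.Prime ∧ z P < p ∧ (p : ℤ) ∣ hv P.natDegree P a b := by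
    intro P _ p hp
    rw [hG, Finset.mem_filter] at hp
    refine ⟨Nat.prime_of_mem_primeFactors hp.1, hp.2, ?_⟩
    exact Int.natCast_dvd.mpr (Nat.dvd_of_mem_primeFactors hp.1)
  have hsub : S.biUnion G ⊆
      (4 * A' ^ 3 + 27 * B' ^ 2).natAbs.primeFactors.filter (fun p => 5 ≤ p) := by
    intro p hp
    rw [Finset.mem_biUnion] at hp
    obtain ⟨P, hP, hp⟩ := hp
    obtain ⟨h1, h2, h3⟩ := hmem P hP p hp
    obtain ⟨h4, h5⟩ := hLC P hP p h1 h2 h3 ((hgood P hP).1 p h1 h2)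
    rw [Finset.mem_filter, Nat.mem_primeFactors]
    refine ⟨⟨h1, Int.natCast_dvd.mp h4, Int.natAbs_ne_zero.mpr hD⟩, ?_⟩
    have := hz P hP
    omega
  have hdisj : (S : Set ℤ[X]).PairwiseDisjoint G := by
    intro P hP Q hQ hPQ
    rw [Function.onFun, Finset.disjoint_left]
    intro p hp hq
    obtain ⟨h1, h2, h3⟩ := hmem P hP p hp
    obtain ⟨_, _, h6⟩ := hmem Q hQ p hq
    exact hRES P hP Q hQ hPQ p h1 h2 h3 h6
  rw [log_cond6]
  have hnn : ∀ p : ℕ, 0 ≤ (condExp p A' B' : ℝ) * Real.log p := fun p =>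
    mul_nonneg (Nat.cast_nonneg _) (Real.log_natCast_nonneg p)
  have hP : ∀ P ∈ S, ((wt P A * P.natDegree : ℕ) : ℝ) * Real.log H - 2 * ε' * Real.log H ≤
      ∑ p ∈ G P, (condExp p A' B' : ℝ) * Real.log p := by
    intro P hP
    have h1 : ∑ p ∈ G P, (wt P A : ℝ) * Real.log p ≤
        ∑ p ∈ G P, (condExp p A' B' : ℝ) * Real.log p := by
      refine Finset.sum_le_sum fun p hp => ?_
      obtain ⟨h1, h2, h3⟩ := hmem P hP p hp
      obtain ⟨h4, h5⟩ := hLC P hP p h1 h2 h3 ((hgood P hP).1 p h1 h2)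
      exact mul_le_mul_of_nonneg_right (by exact_mod_cast h5) (Real.log_natCast_nonneg p)
    refine le_trans ?_ h1
    rw [← Finset.mul_sum]
    have h2 := (hgood P hP).2.2
    have hw0 : (0 : ℝ) ≤ wt P A := Nat.cast_nonneg _
    have hw2 : (wt P A : ℝ) ≤ 2 := by exact_mod_cast wt_le P A
    have h3 := mul_le_mul_of_nonneg_left h2 hw0
    refine le_trans ?_ h3
    push_cast
    have h4 : (wt P A : ℝ) * (ε' * Real.log H) ≤ 2 * (ε' * Real.log H) :=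
      mul_le_mul_of_nonneg_right hw2 (mul_nonneg hε hlogH)
    nlinarith
  calc (((∑ P ∈ S, wt P A * P.natDegree : ℕ) : ℝ) - 2 * S.card * ε') * Real.log H
      = ∑ P ∈ S, (((wt P A * P.natDegree : ℕ) : ℝ) * Real.log H - 2 * ε' * Real.log H) := by
        rw [Finset.sum_sub_distrib, Finset.sum_const, ← Finset.sum_mul, nsmul_eq_mul]
        push_cast
        ring
    _ ≤ ∑ P ∈ S, ∑ p ∈ G P, (condExp p A' B' : ℝ) * Real.log p := Finset.sum_le_sum hP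
    _ = ∑ p ∈ S.biUnion G, (condExp p A' B' : ℝ) * Real.log p := (Finset.sum_biUnion hdisj).symm
    _ ≤ _ := Finset.sum_le_sum_of_subset_of_nonneg hsub fun p _ _ => hnn p

theorem main : P_CNL := by
  classical
  intro hHVM hRAD hLC hRES hZER k A B hA hB hA0 hB0 hD0 S hS hcop ε δ hε hδ
  have hL : ∀ P : ℤ[X], ∃ z : ℕ, P ∈ S → ∀ p : ℕ, p.Prime → z < p → ∀ a b : ℤ, Int.gcd a b = 1 →
      (p : ℤ) ∣ hv P.natDegree P a b → ¬ (p : ℤ) ^ 2 ∣ hv P.natDegree P a b →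
      (p : ℤ) ∣ 4 * (hv (4 * k) A a b) ^ 3 + 27 * (hv (6 * k) B a b) ^ 2 ∧
      wt P A ≤ condExp p (hv (4 * k) A a b) (hv (6 * k) B a b) := by
    intro P
    by_cases hP : P ∈ S
    · obtain ⟨h1, h2, h3, h4, h5⟩ := hS P hP
      obtain ⟨z, hz⟩ := hLC k A B P hA hB hA0 hB0 h1 h2 h4 h5
      exact ⟨z, fun _ => hz⟩
    · exact ⟨0, fun h => absurd h hP⟩
  choose zL hzL using hL
  have hR : ∀ P Q : ℤ[X], ∃ z : ℕ, P ∈ S → Q ∈ S → P ≠ Q → ∀ p : ℕ, p.Prime → z < p →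
      ∀ a b : ℤ, Int.gcd a b = 1 →
      (p : ℤ) ∣ hv P.natDegree P a b → ¬ (p : ℤ) ∣ hv Q.natDegree Q a b := by
    intro P Q
    by_cases hPQ : P ∈ S ∧ Q ∈ S ∧ P ≠ Q
    · obtain ⟨hP, hQ, hne⟩ := hPQ
      obtain ⟨z, hz⟩ := hRES hHVM Q.natDegree P Q (hS P hP).2.1 le_rfl (hcop P hP Q hQ hne)
      exact ⟨z, fun _ _ _ => hz⟩
    · exact ⟨0, fun h1 h2 h3 => absurd ⟨h1, h2, h3⟩ hPQ⟩
  choose zR hzR using hR
  set z1 : ℕ := 5 + ∑ P ∈ S, zL P + ∑ P ∈ S, ∑ Q ∈ S, zR P Q with hz1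
  have hz1L : ∀ P ∈ S, zL P ≤ z1 := by
    intro P hP
    have := Finset.single_le_sum (f := zL) (fun i _ => Nat.zero_le _) hP
    omega
  have hz1R : ∀ P ∈ S, ∀ Q ∈ S, zR P Q ≤ z1 := by
    intro P hP Q hQ
    have h1 := Finset.single_le_sum (f := fun Q => zR P Q) (fun i _ => Nat.zero_le _) hQ
    have h2 := Finset.single_le_sum (f := fun P => ∑ Q ∈ S, zR P Q) (fun i _ => Nat.zero_le _) hP
    omega
  set c : ℝ := (S.card : ℝ) + 1 with hc
  have hc0 : 0 < c := by positivity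
  have hRD : ∀ P : ℤ[X], ∃ (z : ℕ) (H₀ : ℕ), P ∈ S → z1 ≤ z ∧ ∀ H : ℕ, H₀ ≤ H →
      ∀ s : Finset (ℤ × ℤ), s ⊆ box H →
      (∀ x ∈ s, ¬ ((∀ p : ℕ, p.Prime → z < p → ¬ (p : ℤ) ^ 2 ∣ hv P.natDegree P x.1 x.2) ∧
        hv P.natDegree P x.1 x.2 ≠ 0 ∧
        ((P.natDegree : ℝ) - ε / (2 * c)) * Real.log H ≤
          ∑ p ∈ (hv P.natDegree P x.1 x.2).natAbs.primeFactors.filter (fun p => z < p),
            Real.log p)) →
      (s.card : ℝ) ≤ δ / c * (H : ℝ) ^ 2 := by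
    intro P
    by_cases hP : P ∈ S
    · obtain ⟨h1, h2, h3, h4, h5⟩ := hS P hP
      obtain ⟨z, hz, H₀, hH⟩ := hRAD P h1 h2 h3 (ε / (2 * c)) (δ / c) (by positivity)
        (by positivity) z1
      exact ⟨z, H₀, fun _ => ⟨hz, hH⟩⟩
    · exact ⟨0, 0, fun h => absurd h hP⟩
  choose z HR hzH using hRD
  obtain ⟨HZ, hHZ⟩ := hZER (12 * k) (4 * A ^ 3 + 27 * B ^ 2) hD0 (natDegree_disc k A B hA hB)
    (δ / c) (by positivity)
  refine ⟨HZ + ∑ P ∈ S, HR P, ?_⟩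
  intro H hH s hs hbad
  have hHR : ∀ P ∈ S, HR P ≤ H := by
    intro P hP
    have := Finset.single_le_sum (f := HR) (fun i _ => Nat.zero_le _) hP
    omega
  set sZ := s.filter (fun x => hv (12 * k) (4 * A ^ 3 + 27 * B ^ 2) x.1 x.2 = 0) with hsZ
  set sP : ℤ[X] → Finset (ℤ × ℤ) := fun P => s.filter (fun x =>
    ¬ ((∀ p : ℕ, p.Prime → z P < p → ¬ (p : ℤ) ^ 2 ∣ hv P.natDegree P x.1 x.2) ∧
        hv P.natDegree P x.1 x.2 ≠ 0 ∧
        ((P.natDegree : ℝ) - ε / (2 * c)) * Real.log H ≤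
          ∑ p ∈ (hv P.natDegree P x.1 x.2).natAbs.primeFactors.filter (fun p => z P < p),
            Real.log p)) with hsP
  have hcov : s ⊆ sZ ∪ S.biUnion sP := by
    intro x hx
    by_contra hcon
    rw [Finset.mem_union, not_or] at hcon
    obtain ⟨hc1, hc2⟩ := hcon
    have hD : hv (12 * k) (4 * A ^ 3 + 27 * B ^ 2) x.1 x.2 ≠ 0 := by
      intro h
      exact hc1 (Finset.mem_filter.mpr ⟨hx, h⟩)
    have hg : ∀ P ∈ S, ((∀ p : ℕ, p.Prime → z P < p → ¬ (p : ℤ) ^ 2 ∣ hv P.natDegree P x.1 x.2) ∧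
        hv P.natDegree P x.1 x.2 ≠ 0 ∧
        ((P.natDegree : ℝ) - ε / (2 * c)) * Real.log H ≤
          ∑ p ∈ (hv P.natDegree P x.1 x.2).natAbs.primeFactors.filter (fun p => z P < p),
            Real.log p) := by
      intro P hP
      by_contra h
      exact hc2 (Finset.mem_biUnion.mpr ⟨P, hP, Finset.mem_filter.mpr ⟨hx, h⟩⟩)
    rw [hv_disc hHVM k A B hA hB] at hD
    have hgcd : Int.gcd x.1 x.2 = 1 := (Finset.mem_filter.mp (hs hx)).2
    apply hbad x hx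
    refine ⟨?_, hD⟩
    have hcore := core A S z (ε / (2 * c)) (by positivity) x.1 x.2 (hv (4 * k) A x.1 x.2)
      (hv (6 * k) B x.1 x.2) H (fun P hP => le_trans (by omega) (hzH P hP).1)
      (fun P hP p hp hzp h1 h2 => hzL P hP p hp
        (lt_of_le_of_lt ((hz1L P hP).trans (hzH P hP).1) hzp) x.1 x.2 hgcd h1 h2)
      (fun P hP Q hQ hne p hp hzp h1 => hzR P Q hP hQ hne p hp
        (lt_of_le_of_lt ((hz1R P hP Q hQ).trans (hzH P hP).1) hzp) x.1 x.2 hgcd h1)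
      hD hg
    refine le_trans ?_ hcore
    apply mul_le_mul_of_nonneg_right _ (Real.log_natCast_nonneg H)
    have : 2 * (S.card : ℝ) * (ε / (2 * c)) ≤ ε := by
      rw [mul_div_assoc', div_le_iff₀ (by positivity)]
      rw [hc]
      nlinarith
    linarith
  have hcard : (s.card : ℝ) ≤ (sZ.card : ℝ) + ∑ P ∈ S, ((sP P).card : ℝ) := by
    have h1 : s.card ≤ sZ.card + ∑ P ∈ S, (sP P).card :=
      (Finset.card_le_card hcov).trans ((Finset.card_union_le _ _).trans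
        (Nat.add_le_add_left Finset.card_biUnion_le _))
    exact_mod_cast h1
  have hZ : (sZ.card : ℝ) ≤ δ / c * (H : ℝ) ^ 2 :=
    hHZ H (by omega) sZ ((Finset.filter_subset _ _).trans hs)
      (fun x hx => (Finset.mem_filter.mp hx).2)
  have hPP : ∀ P ∈ S, ((sP P).card : ℝ) ≤ δ / c * (H : ℝ) ^ 2 := fun P hP =>
    (hzH P hP).2 H (hHR P hP) (sP P) ((Finset.filter_subset _ _).trans hs)
      (fun x hx => (Finset.mem_filter.mp hx).2)
  calc (s.card : ℝ) ≤ (sZ.card : ℝ) + ∑ P ∈ S, ((sP P).card : ℝ) := hcard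
    _ ≤ δ / c * (H : ℝ) ^ 2 + ∑ P ∈ S, δ / c * (H : ℝ) ^ 2 :=
        add_le_add hZ (Finset.sum_le_sum hPP)
    _ = δ * (H : ℝ) ^ 2 := by
        rw [Finset.sum_const, nsmul_eq_mul]
        field_simp
        rw [hc]
        ring

end Pool.Agent.W571.FR.CNL
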